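import Pool.Agent.H75C.HY.TRG

/-!
# PIECE D6: the size of a step of the game for transitive frames (helper50)
-/

set_option autoImplicit false
set_option synthInstance.maxSize 4000

namespace Pool.Agent.Helper50.TRD

open Pool.Agent.NPC Pool.Agent.H75C.HY Pool.Agent.H75C.HY.TR

def FK (n : ℕ) : ℕ := 2 * (n * (n + 1) + 1) + 1
def FZ (n : ℕ) : ℕ := n * (4 * n + 2) + 1
def FM (n : ℕ) : ℕ := n * (FK n + 5) + 1
def FL (n : ℕ) : ℕ := n * (5 * n + 3) + 1
def FC (n : ℕ) : ℕ := 4 * n + 3 * FL n + 10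
def FS (n : ℕ) : ℕ := FC n + FZ n + FM n

theorem sz_list_bound {α : Type} [TEnc α] {l : List α} {B n : ℕ} (h : ∀ a ∈ l, sz a ≤ B)
    (hl : l.length ≤ n) : sz l ≤ n * (B + 1) + 1 :=
  (sz_le_length_mul l B h).trans (Nat.succ_le_succ (Nat.mul_le_mul_right _ hl))

theorem sz_snd {w : List Tok} {x : ℕ} (h : x ∈ w.map Prod.snd) : sz x ≤ sz w := by
  obtain ⟨t, ht, rfl⟩ := List.mem_map.1 h
  have h1 := sz_le_of_mem ht
  have h2 : sz t = sz t.1 + sz t.2 + 1 := sz_pair t.1 t.2
  omega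

theorem sz_key {w : List Tok} {k : Key} (h : vk w k = true) {n : ℕ} (hn : sz w ≤ n) :
    sz k ≤ FK n := by
  unfold vk at h
  simp only [Bool.and_eq_true, decide_eq_true_eq, List.all_eq_true] at h
  obtain ⟨⟨⟨h1, h2⟩, h3⟩, h4⟩ := h
  have hw := length_lt_sz w
  have e1 : sz k.1 ≤ n * (n + 1) + 1 :=
    sz_list_bound (fun t ht => (sz_le_of_mem (h2 t ht)).le.trans hn) (by omega)
  have e2 : sz k.2 ≤ n * (n + 1) + 1 :=
    sz_list_bound (fun t ht => (sz_snd (h4 t ht)).trans hn) (by omega)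
  have e3 : sz k = sz k.1 + sz k.2 + 1 := sz_pair k.1 k.2
  unfold FK
  omega

theorem sz_vz {L : ℕ} {Z : List ℕ} (h : vz L Z = true) {n : ℕ} (hn : L ≤ n) : sz Z ≤ FZ n := by
  unfold vz at h
  simp only [Bool.and_eq_true, decide_eq_true_eq, List.all_eq_true] at h
  refine sz_list_bound (fun z hz => ?_) (h.1.trans hn)
  have h1 := sz_nat_le' z
  have h2 := h.2 z hz
  omega

theorem sz_vf {w : List Tok} {L : ℕ} {m : Fls} (h : vf w L m = true) {n : ℕ} (hw : sz w ≤ n)
    (hn : L ≤ n) : sz m ≤ FM n := by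
  unfold vf at h
  simp only [Bool.and_eq_true, decide_eq_true_eq, List.all_eq_true] at h
  refine sz_list_bound (fun f hf => ?_) (h.1.trans hn)
  have h1 := sz_key (h.2 f hf) hw
  have h2 : sz f = sz f.1 + sz f.2 + 1 := sz_pair f.1 f.2
  have h3 := sz_bool_le f.2
  omega

theorem sz_vl {w : List Tok} {L : ℕ} {l : List (ℕ × ℕ)} (h : vl w L l = true) {n : ℕ}
    (hw : sz w ≤ n) (hn : L ≤ n) : sz l ≤ FL n := by
  unfold vl at h
  simp only [Bool.and_eq_true, decide_eq_true_eq, List.all_eq_true] at h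
  refine sz_list_bound (fun f hf => ?_) (h.1.trans hn)
  have h1 := sz_snd (h.2 f hf).1
  have h2 : sz f = sz f.1 + sz f.2 + 1 := sz_pair f.1 f.2
  have h3 := sz_nat_le' f.2
  have h4 := (h.2 f hf).2
  omega

theorem sz_cl_eq (c : Cl) : sz c = sz c.1 + (sz (N c) + (sz c.2.1.2.1 + sz c.2.1.2.2 + 1) + 1 +
    sz c.2.2 + 1) + 1 := by
  obtain ⟨b, ⟨N, l1, l2⟩, l3⟩ := c
  simp only [sz_pair, TR.N]

theorem sz_vcl {w : List Tok} {L : ℕ} {c : Cl} (h : vcl w L c = true) {n : ℕ}
    (hw : sz w ≤ n) (hn : L ≤ n) : N c ≤ n ∧ sz c ≤ FC n := by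
  unfold vcl at h
  simp only [Bool.and_eq_true, decide_eq_true_eq] at h
  obtain ⟨⟨⟨h1, h2⟩, h3⟩, h4⟩ := h
  refine ⟨h1.trans hn, ?_⟩
  rw [sz_cl_eq]
  have e1 := sz_vl h2 hw hn
  have e2 := sz_vl h3 hw hn
  have e3 := sz_vl h4 hw hn
  have e4 := sz_nat_le' (N c)
  have e5 := sz_bool_le c.1
  unfold FC
  omega

theorem sz_vsp {w : List Tok} {L : ℕ} {SC : List Sp} {j : ℕ} (h : vsp w L (sp SC j) = true)
    {n : ℕ} (hw : sz w ≤ n) (hn : L ≤ n) :
    N (cl SC j) ≤ n ∧ sz (cl SC j) ≤ FC n ∧ sz (ab SC j) ≤ FZ n ∧ sz (fl SC j) ≤ FM n := by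
  unfold vsp at h
  simp only [Bool.and_eq_true] at h
  obtain ⟨⟨h1, h2⟩, h3⟩ := h
  have e := sz_vcl h1 hw hn
  exact ⟨e.1, e.2, sz_vz h2 hn, sz_vf h3 hw hn⟩

theorem sz_env_le (c : Cl) : sz c.2.2 ≤ sz c := by
  rw [sz_cl_eq]; omega

theorem sz_envc {w : List Tok} {k : Key} (hk : vk w k = true) {n : ℕ} (hw : sz w ≤ n) {c : Cl}
    (hN : N c ≤ n) : sz (envc c k.2) ≤ FL n + sz c := by
  unfold vk at hk
  simp only [Bool.and_eq_true, decide_eq_true_eq, List.all_eq_true] at hk
  obtain ⟨⟨⟨h1, h2⟩, h3⟩, h4⟩ := hk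
  have h0 := length_lt_sz w
  have e1 : sz (k.2.map (fun x => (x, N c))) ≤ FL n := by
    refine sz_list_bound (B := 5 * n + 2) (fun p hp => ?_) (by rw [List.length_map]; omega)
    obtain ⟨x, hx, rfl⟩ := List.mem_map.1 hp
    have a1 := sz_snd (h4 x hx)
    have a2 := sz_nat_le' (N c)
    rw [sz_pair]
    omega
  have e2 := sz_append (k.2.map (fun x => (x, N c))) c.2.2
  have e3 := sz_env_le c
  unfold envc
  omega

/-- a big constant -/
def CC : ℕ := sz (TR.fin true) + sz (TR.fin false) + sz cf0 + sz ev0 + sz ev0.1 +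
  sz ((([], []), false) : Key × Bool) + 200

theorem sz_fin (r : Bool) : sz (TR.fin r) + 200 ≤ CC := by
  unfold CC
  cases r <;> omega

theorem sz_evS (c : Cl) (mc : Fls) (k : Key) (v : ℕ) (b : Bool) :
    sz (evS c mc k v b) + 100 ≤ sz c + sz mc + sz k + sz (envc c k.2) + sz v + CC := by
  unfold evS CC
  have h1 := sz_nat_le' 4
  have h2 := sz_bool_le b
  have h3 : sz k = sz k.1 + sz k.2 + 1 := sz_pair k.1 k.2
  simp only [sz_pair, sz_none, sz_list_nil]
  omega

theorem sz_ndS (J : List Key) (k : Key) : sz (ndS J k) + 50 ≤ sz J + sz k + CC := by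
  unfold ndS CC
  have h1 := sz_nat_le' 5
  have h2 := sz_nat_le' 0
  have h3 : sz k = sz k.1 + sz k.2 + 1 := sz_pair k.1 k.2
  simp only [sz_pair, sz_none, sz_list_nil, sz_false]
  omega

theorem sz_att (wf : List Tok → Bool) {w : List Tok} (J : List Key) {c : Cl} (mc m : Fls)
    (k u : ℕ) (b : Bool) {n : ℕ} (hw : sz w ≤ n) (hN : N c ≤ n) :
    sz (att wf w J c mc m k u b) ≤ 2 * sz c + sz mc + FK n + FL n + 4 * n + CC := by
  unfold att
  split_ifs with h1 h2
  · have e1 := sz_evS c mc (J.getD k ([], [])) u (!b)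
    have e2 := sz_key h2 hw
    have e3 := sz_envc h2 hw hN
    have e4 := sz_nat_le' u
    have e5 := h1.2.1
    omega
  · have := sz_fin false
    omega
  · have := sz_fin true
    omega

theorem ite_sz {c : Prop} [Decidable c] {a b : Gs} {X : ℕ} (h1 : c → sz a ≤ X)
    (h2 : ¬ c → sz b ≤ X) : sz (if c then a else b) ≤ X := by
  split_ifs with h
  · exact h1 h
  · exact h2 h

/-- the bound -/
def QQ (n : ℕ) : ℕ := 2 * FC n + FM n + FZ n + FK n + FL n + 20 * n + CC

theorem sz_ph0 {M : List Bool} {n a : ℕ}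
    (ha : sz (unbits (List Sp × List Key × ℕ) (unpair M).1) ≤ a) :
    sz (ph0 M) ≤ a + QQ n := by
  unfold ph0
  cases hu : unbits (List Sp × List Key × ℕ) (unpair M).1 with
  | none =>
    simp only
    have := sz_fin false
    unfold QQ
    omega
  | some d =>
    rw [hu] at ha
    obtain ⟨SC, J, v⟩ := d
    simp only [sz_some, sz_pair] at ha
    simp only
    split_ifs
    · have h1 := sz_nat_le' 1
      unfold QQ CC
      simp only [sz_pair, sz_none, sz_list_nil, sz_false]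
      omega
    · have := sz_fin false
      unfold QQ
      omega

theorem sz_ph1 (wf : List Tok → Bool) {w : List Tok} (SC : List Sp) (J : List Key) (v0 : ℕ)
    {L : ℕ} (x : ℕ × ℕ × ℕ × ℕ × ℕ × Bool) {n : ℕ} (hw : sz w ≤ n) (hn : L ≤ n) :
    sz (ph1 wf w SC J v0 L x) ≤ sz SC + sz J + sz v0 + QQ n := by
  have hF : ∀ r, sz (TR.fin r) ≤ sz SC + sz J + sz v0 + QQ n := by
    intro r
    have := sz_fin r
    unfold QQ
    omega
  have hatt : ∀ j k u b m, vsp w L (sp SC j) = true →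
      sz (att wf w J (cl SC j) (fl SC j) m k u b) ≤ sz SC + sz J + sz v0 + QQ n := by
    intro j k u b m hj
    obtain ⟨e1, e2, e3, e4⟩ := sz_vsp hj hw hn
    have := sz_att wf J (fl SC j) m k u b hw e1
    unfold QQ
    omega
  unfold ph1
  refine ite_sz (fun _ => ite_sz (fun h2 => ?_) (fun _ => hF _)) (fun _ => ?_)
  · obtain ⟨e1, e2, e3, e4⟩ := sz_vsp h2 hw hn
    have e5 := sz_evS (cl SC 0) (fl SC 0) (w, []) v0 true
    have e6 : sz (envc (cl SC 0) ((w, []) : Key).2) ≤ sz (cl SC 0) := by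
      have : envc (cl SC 0) ((w, []) : Key).2 = (cl SC 0).2.2 := rfl
      rw [this]
      exact sz_env_le _
    have e7 : sz ((w, []) : Key) = sz w + 1 + 1 := sz_pair w ([] : List ℕ)
    unfold QQ
    omega
  refine ite_sz (fun _ => ?_) (fun _ => ?_)
  · have e5 := sz_ndS J (w, [])
    have e7 : sz ((w, []) : Key) = sz w + 1 + 1 := sz_pair w ([] : List ℕ)
    unfold QQ
    omega
  refine ite_sz (fun _ => ite_sz (fun _ => ite_sz (fun hvk => ?_) (fun _ => hF _)) (fun _ => hF _))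
    (fun _ => ?_)
  · have e5 := sz_ndS J (J.getD x.2.2.2.1 ([], []))
    have e6 := sz_key hvk hw
    unfold QQ
    omega
  refine ite_sz (fun _ => ?_) (fun _ => hF _)
  refine ite_sz (fun _ => hF _) (fun _ => ?_)
  refine ite_sz (fun _ => ite_sz (fun _ => hF _) (fun _ => hF _)) (fun _ => ?_)
  refine ite_sz (fun _ => ite_sz (fun _ => hF _) (fun _ => ite_sz (fun _ => hF _) (fun _ => hF _)))
    (fun _ => ?_)
  refine ite_sz (fun _ => ite_sz (fun _ => ite_sz (fun h => hatt _ _ _ _ _ h) (fun _ => hF _))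
    (fun _ => hF _)) (fun _ => ?_)
  refine ite_sz (fun _ => ite_sz (fun hv => ?_) (fun _ => hF _)) (fun _ => hF _)
  obtain ⟨e1, e2, e3, e4⟩ := sz_vsp hv hw hn
  have e5 := sz_nat_le' 2
  unfold QQ CC
  simp only [sz_pair, sz_none]
  omega

theorem sz_ph2 (wf : List Tok → Bool) {w : List Tok} (SC : List Sp) (J : List Key) (Z : List ℕ)
    (m : Fls) (k : ℕ) {n : ℕ} (hw : sz w ≤ n) :
    sz (ph2 wf w SC J Z m k) ≤ sz SC + sz J + sz Z + sz m + QQ n := by
  have hF : ∀ r, sz (TR.fin r) ≤ sz SC + sz J + sz Z + sz m + QQ n := by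
    intro r
    have := sz_fin r
    unfold QQ
    omega
  unfold ph2
  refine ite_sz (fun _ => ite_sz (fun h2 => ?_) (fun _ => hF _)) (fun _ => hF _)
  have e1 := sz_key h2 hw
  have e2 := sz_nat_le' 3
  have e3 : sz (m.getD k (([], []), false)) = sz (m.getD k (([], []), false)).1 +
      sz (m.getD k (([], []), false)).2 + 1 := sz_pair _ _
  have e4 := sz_bool_le (m.getD k (([], []), false)).2
  unfold QQ CC
  simp only [sz_pair, sz_none]
  omega

theorem sz_ph3 (wf : List Tok → Bool) {w : List Tok} (SC : List Sp) (J : List Key) (Z : List ℕ)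
    (m : Fls) (κ : Key × Bool) {M : List Bool} (x : ℕ × ℕ × ℕ × ℕ × ℕ × Bool) {n a : ℕ}
    (hw : sz w ≤ n) (hn : M.length ≤ n) (ha : sz (unbits An (unpair M).1) ≤ a) :
    sz (ph3 wf w SC J Z m κ M x) ≤ sz SC + sz J + sz Z + sz m + 2 * a + QQ n := by
  have hF : ∀ r, sz (TR.fin r) ≤ sz SC + sz J + sz Z + sz m + 2 * a + QQ n := by
    intro r
    have := sz_fin r
    unfold QQ
    omega
  unfold ph3
  cases hu : unbits An (unpair M).1 with
  | none => exact hF _
  | some d =>
    rw [hu] at ha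
    obtain ⟨⟨sel, i, u⟩, c, Z', m', u0⟩ := d
    simp only [sz_some, sz_pair] at ha
    have ha' : sz i + sz u + sz c + sz Z' + sz m' + sz u0 + 2 ≤ a := by
      have := sz_cl_eq c
      obtain ⟨c1, ⟨c2, c3, c4⟩, c5⟩ := c
      simp only [sz_pair] at ha ⊢
      omega
    show sz (if vk w κ.1 = false then TR.fin false
      else if sel = false then
        if i ∈ Z ∧ u < N (cl SC i) ∧ vsp w M.length (sp SC i) = true then
          evS (cl SC i) (fl SC i) κ.1 u κ.2
        else TR.fin false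
      else if clokb c = true ∧ c.2.1.2.2 = [] ∧ c.2.2 = [] ∧ subb Z' Z = true ∧
          subb m' m = true ∧ u0 < N c ∧ N c ≤ M.length then
        if x.1 = 0 then evS c m' κ.1 u0 κ.2
        else if x.1 = 1 then att wf w J c m' m x.2.2.2.1 x.2.2.2.2.1 x.2.2.2.2.2
        else if x.1 = 2 then
          if x.2.2.1 ∈ Z' then
            TR.fin (decide (x.2.2.1 < SC.length) && subb (ab SC x.2.2.1) Z' &&
              subb (fl SC x.2.2.1) m')
          else TR.fin true
        else if x.1 = 3 then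
          if x.2.2.1 ∈ Z' then
            if vsp w M.length (sp SC x.2.2.1) = true then
              att wf w J (cl SC x.2.2.1) (fl SC x.2.2.1) m' x.2.2.2.1 x.2.2.2.2.1
                x.2.2.2.2.2
            else TR.fin false
          else TR.fin true
        else if x.1 = 4 then
          if subb Z Z' = true ∧ subb m m' = true then TR.fin true
          else ((none, 2), (SC, J), (Z', m', (([], []), false)), ev0)
        else TR.fin true
      else TR.fin false) ≤ _
    refine ite_sz (fun _ => hF _) (fun h1 => ?_)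
    have hvk : vk w κ.1 = true := by simpa using h1
    refine ite_sz (fun _ => ite_sz (fun h3 => ?_) (fun _ => hF _)) (fun _ => ?_)
    · obtain ⟨e1, e2, e3, e4⟩ := sz_vsp h3.2.2 hw hn
      have e5 := sz_evS (cl SC i) (fl SC i) κ.1 u κ.2
      have e6 := sz_key hvk hw
      have e7 := sz_envc hvk hw e1
      have e8 := sz_nat_le' u
      have e9 := h3.2.1
      unfold QQ
      omega
    refine ite_sz (fun hc => ?_) (fun _ => hF _)
    have e1 : N c ≤ n := hc.2.2.2.2.2.2.trans hn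
    refine ite_sz (fun _ => ?_) (fun _ => ?_)
    · have e5 := sz_evS c m' κ.1 u0 κ.2
      have e6 := sz_key hvk hw
      have e7 := sz_envc hvk hw e1
      unfold QQ
      omega
    refine ite_sz (fun _ => ?_) (fun _ => ?_)
    · have e5 := sz_att wf J m' m x.2.2.2.1 x.2.2.2.2.1 x.2.2.2.2.2 hw e1
      unfold QQ
      omega
    refine ite_sz (fun _ => ite_sz (fun _ => hF _) (fun _ => hF _)) (fun _ => ?_)
    refine ite_sz (fun _ => ite_sz (fun _ => ite_sz (fun hv => ?_) (fun _ => hF _))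
      (fun _ => hF _)) (fun _ => ?_)
    · obtain ⟨f1, e2, e3, e4⟩ := sz_vsp hv hw hn
      have e5 := sz_att wf J (fl SC x.2.2.1) m' x.2.2.2.1 x.2.2.2.2.1 x.2.2.2.2.2 hw f1
      unfold QQ
      omega
    refine ite_sz (fun _ => ite_sz (fun _ => hF _) (fun _ => ?_)) (fun _ => hF _)
    have e5 := sz_nat_le' 2
    unfold QQ CC
    simp only [sz_pair, sz_none]
    omega

theorem sz_valB (M : List Bool) : sz (valB M) ≤ 4 * sz M + 1 := by
  have h1 := sz_nat_le (valB M)
  have h2 : (valB M).size ≤ M.length := Nat.size_le.2 (valB_lt M)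
  have h3 := sz_listBool_ge M
  omega

theorem sz_dropLast {α : Type} [TEnc α] (l : List α) : sz l.dropLast ≤ sz l := by
  rw [List.dropLast_eq_take]
  exact NPC.Poly.sz_take_le _ _

theorem sz_ph4 (E : ℕ → List Bool → Bool) (K : ℕ → ℕ) {argX : List Tok → ℕ → List Tok}
    (hA : ∀ w i, sz (argX w i) ≤ sz w)
    {w : List Tok} (c : Cl) (mc : Fls) (t : Tok) (tl : List Tok) (B : List ℕ) (e : List (ℕ × ℕ)) (v : ℕ)
    (b : Bool) (M M' : List Bool) {n : ℕ} (hw : sz w ≤ n) (hM : sz M ≤ n) (hM' : sz M' ≤ n) :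
    sz (ph4 E K argX w c mc t tl B e v b M M') ≤ sz c + sz mc + sz (t :: tl) + sz B + sz e + sz v +
      QQ n := by
  have hF : ∀ r, sz (TR.fin r) ≤ sz c + sz mc + sz (t :: tl) + sz B + sz e + sz v + QQ n := by
    intro r
    have := sz_fin r
    unfold QQ
    omega
  have h4 := sz_nat_le' 4
  have hm := sz_valB M
  have hm' := sz_valB M'
  have hw1 : sz (t :: tl) = sz t + sz tl + 1 := sz_list_cons t tl
  have hdl := sz_dropLast tl
  have hEv : ∀ (wd : List Tok) (B' : List ℕ) (e' : List (ℕ × ℕ)) (v' : ℕ) (b' : Bool),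
      sz wd + sz B' + sz e' + sz v' ≤ sz (t :: tl) + sz B + sz e + sz v + 14 * n + 50 →
      sz (((none, 4), ([], []), cf0, (c, mc, wd, B', e', v', b')) : Gs) ≤
        sz c + sz mc + sz (t :: tl) + sz B + sz e + sz v + QQ n := by
    intro wd B' e' v' b' h
    have h5 := sz_bool_le b'
    unfold QQ CC
    simp only [sz_pair, sz_none, sz_list_nil]
    obtain ⟨c1, ⟨c2, c3, c4⟩, c5⟩ := c
    simp only [sz_pair] at h ⊢
    omega
  unfold ph4
  refine ite_sz (fun _ => hF _) (fun _ => ?_)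
  refine ite_sz (fun _ => hF _) (fun _ => ?_)
  refine ite_sz (fun _ => hF _) (fun _ => ?_)
  refine ite_sz (fun _ => ite_sz (fun _ => ite_sz (fun _ => ?_) (fun _ => hF _)) (fun _ => hF _))
    (fun _ => ?_)
  · have h5 := hA (t :: tl) (valB M')
    exact hEv _ _ _ _ _ (by omega)
  refine ite_sz (fun _ => ite_sz (fun _ => hF _) (fun _ => ite_sz (fun _ => hF _) (fun _ =>
    ite_sz (fun _ => ite_sz (fun _ => ?_) (fun _ => hF _)) (fun _ => ite_sz (fun _ => ?_)
      (fun _ => hF _))))) (fun _ => ?_)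
  · exact hEv _ _ _ _ _ (by omega)
  · exact hEv _ _ _ _ _ (by omega)
  refine ite_sz (fun ht => ?_) (fun _ => hF _)
  have h5 := sz_le_of_mem ht.2
  have ht : sz t = sz t.1 + sz t.2 + 1 := sz_pair t.1 t.2
  have h6 := sz_nat_le' (min v M.length)
  have h7 : min v M.length ≤ M.length := min_le_right _ _
  have h8 := sz_listBool_ge M
  refine hEv _ _ _ _ _ ?_
  have h9 : sz (t.2 :: B) = sz t.2 + sz B + 1 := sz_list_cons _ _
  have h10 : sz ((t.2, min v M.length) :: e) = (sz t.2 + sz (min v M.length) + 1) + sz e + 1 := by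
    rw [sz_list_cons, sz_pair]
  omega

theorem sz_ph5 (K : ℕ → ℕ) {argX : List Tok → ℕ → List Tok}
    (hA : ∀ w i, sz (argX w i) ≤ sz w) (J : List Key) (t : Tok) (tl : List Tok)
    (B : List ℕ) (M' : List Bool) (n : ℕ) :
    sz (ph5 K argX J t tl B M') ≤ sz J + sz (t :: tl) + sz B + QQ n := by
  have hF : ∀ r, sz (TR.fin r) ≤ sz J + sz (t :: tl) + sz B + QQ n := by
    intro r
    have := sz_fin r
    unfold QQ
    omega
  unfold ph5
  refine ite_sz (fun _ => ite_sz (fun _ => ?_) (fun _ => hF _)) (fun _ => ?_)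
  · have h1 := sz_ndS J (argX (t :: tl) (valB M'), B)
    have h2 := hA (t :: tl) (valB M')
    have h3 : sz ((argX (t :: tl) (valB M'), B) : Key) = sz (argX (t :: tl) (valB M')) + sz B + 1 :=
      sz_pair _ _
    unfold QQ
    omega
  refine ite_sz (fun _ => hF _) (fun _ => ?_)
  refine ite_sz (fun _ => ?_) (fun _ => hF _)
  have h1 := sz_ndS J (tl, t.2 :: B)
  have hw1 : sz (t :: tl) = sz t + sz tl + 1 := sz_list_cons t tl
  have ht : sz t = sz t.1 + sz t.2 + 1 := sz_pair t.1 t.2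
  have h3 : sz ((tl, t.2 :: B) : Key) = sz tl + (sz t.2 + sz B + 1) + 1 := by
    rw [sz_pair, sz_list_cons]
  unfold QQ
  omega

open Polynomial in
/-- the polynomial of `QQ` -/
noncomputable def PQ : Polynomial ℕ :=
  2 * (4 * X + 3 * (X * (5 * X + 3) + 1) + 10) +
    (X * ((2 * (X * (X + 1) + 1) + 1) + 5) + 1) + (X * (4 * X + 2) + 1) +
    (2 * (X * (X + 1) + 1) + 1) + (X * (5 * X + 3) + 1) + 20 * X + C CC

theorem PQ_eval (n : ℕ) : PQ.eval n = QQ n := by
  unfold PQ QQ FC FM FZ FK FL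
  simp
  try rfl

theorem d6 : D6 := by
  intro E K argX wf hA
  obtain ⟨p0, hp0⟩ := ((poly_unbits (α := List Sp × List Key × ℕ)).comp
    (NPC.Poly.fst poly_unpair)).sz_le
  obtain ⟨p1, hp1⟩ := ((poly_unbits (α := An)).comp
    (NPC.Poly.fst poly_unpair)).sz_le
  refine ⟨p0 + 2 * p1 + PQ, fun w s M M' => ?_⟩
  set n := sz w + sz M + sz M' with hn
  have hq : (p0 + 2 * p1 + PQ).eval n = p0.eval n + 2 * p1.eval n + QQ n := by
    simp [PQ_eval]
  rw [hq]
  have hq0 : sz (unbits (List Sp × List Key × ℕ) (unpair M).1) ≤ p0.eval n :=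
    (hp0 M).trans (eval_mono p0 (by omega))
  have hq1 : sz (unbits An (unpair M).1) ≤ p1.eval n :=
    (hp1 M).trans (eval_mono p1 (by omega))
  have hL : M.length ≤ n := by
    have := sz_listBool_ge M
    omega
  have hw : sz w ≤ n := by omega
  have hM : sz M ≤ n := by omega
  have hM' : sz M' ≤ n := by omega
  obtain ⟨⟨o, ph⟩, ⟨SC, J⟩, ⟨Z, m, κ⟩, c, mc, wd, B, e, v, b⟩ := s
  have hs : sz ((((o, ph), (SC, J), (Z, m, κ), c, mc, wd, B, e, v, b) : Gs)) =
      (sz o + sz ph + 1) + ((sz SC + sz J + 1) + ((sz Z + (sz m + sz κ + 1) + 1) +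
        (sz c + (sz mc + (sz wd + (sz B + (sz e + (sz v + sz b + 1) + 1) + 1) + 1) + 1) + 1)
          + 1) + 1) + 1 := by
    obtain ⟨c1, ⟨c2, c3, c4⟩, c5⟩ := c
    obtain ⟨⟨k1, k2⟩, k3⟩ := κ
    simp only [sz_pair]
  rw [hs]
  unfold tstep
  by_cases h1 : o.isSome = true
  · simp only [h1, if_true]
    rw [hs]
    omega
  · simp only [h1, if_false, Bool.false_eq_true]
    split_ifs with g0 g1 g2 g3 g4
    · have := sz_ph0 (n := n) hq0
      omega
    · have := sz_ph1 wf SC J v (chl M') hw hL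
      omega
    · have := sz_ph2 wf SC J Z m (chl M').2.2.2.1 hw
      omega
    · have := sz_ph3 wf SC J Z m κ (chl M') hw hL hq1
      omega
    · cases wd with
      | nil =>
        have := sz_fin false
        simp only
        unfold QQ
        omega
      | cons t tl =>
        have := sz_ph4 E K hA c mc t tl B e v b M M' hw hM hM'
        simp only
        omega
    · cases wd with
      | nil =>
        have := sz_fin false
        simp only
        unfold QQ
        omega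
      | cons t tl =>
        have := sz_ph5 K hA J t tl B M' n
        simp only
        omega

end Pool.Agent.Helper50.TRD
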